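import Pool.Agent.W_1b8d5d_h57p.TubeM

/-!
MP_1b8d5d_pr, track P, section 6: THE MEAN OF THE TUBE AT AN OCTAVE WHICH IS NOT SOFT (row 619, section 6, at `T = 0`; the
analogue of `o52_mean` of `W_7d29a1_G/Oct52b`). If the minimal walk stays in the tube with probability at least `3 / 4` then the mean
cost in the tube is at most the mean cost plus `2 * 2 ^ (-α)` units. (helper93)
-/

namespace Pool.Agent.W_1b8d5d_h93p

open MeasureTheory Set
open Pool.Agent.W_1b8d5d_h85 (V nm dir Env Edge grid wedges cost Bd sh)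
open Pool.Agent.W_1b8d5d_p Pool.Agent.W_1b8d5d_h57p
open Pool.Agent.W_1b8d5d_h4p (Lk lk_X Sf conc_of_not_Sf int_negX)

variable {F : Fm} {κ : ℝ} {d : Dr}

/-- Two luck functionals at an octave which is not soft: if `G₁ ≤ G₂` with probability at least `3 / 4` then the means are ordered up
to `2 * 2 ^ (-α)` units. -/
theorem mean_le_of_prob {x : ℕ} {α : ℝ} (hS : ¬ Sf F κ d x α) (hα : 2 ≤ α) {l l' : ℕ} (hl : l ≤ 2 ^ x) (hl' : l' ≤ 2 ^ x)
    {G G' : Env → ℝ} (hG : Lk F κ d l G) (hG' : Lk F κ d l' G')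
    (hm : -((2 : ℝ) ^ α * EE F d (2 ^ x)) ≤ ∫ η, G (F.tau η) ∂(law F))
    (hm' : -((2 : ℝ) ^ α * EE F d (2 ^ x)) ≤ ∫ η, G' (F.tau η) ∂(law F))
    (hp : 3 / 4 ≤ (law F).real {η | G (F.tau η) ≤ G' (F.tau η)}) :
    ∫ η, G (F.tau η) ∂(law F) ≤ ∫ η, G' (F.tau η) ∂(law F) + 2 * ((2 : ℝ) ^ (-α) * EE F d (2 ^ x)) := by
  have hx : ∀ n : ℕ, n ≤ 2 ^ x → (n : ℝ) ≤ (2 : ℝ) ^ ((x : ℝ) + α) := by
    intro n hn
    have h1 : (n : ℝ) ≤ 2 ^ x := by exact_mod_cast hn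
    rw [Real.rpow_add two_pos, Real.rpow_natCast]
    have h2 : (1 : ℝ) ≤ 2 ^ α := Real.one_le_rpow one_le_two (by linarith)
    have h3 : (0 : ℝ) ≤ 2 ^ x := by positivity
    calc (n : ℝ) ≤ 2 ^ x * 1 := by rw [mul_one]; exact h1
      _ ≤ 2 ^ x * 2 ^ α := mul_le_mul_of_nonneg_left h2 h3
  have hq : (2 : ℝ) ^ (-α) ≤ 1 / 4 := by
    have h1 : (2 : ℝ) ^ (-α) ≤ 2 ^ (-2 : ℝ) := Real.rpow_le_rpow_of_exponent_le one_le_two (by linarith)
    have h2 : (2 : ℝ) ^ (-2 : ℝ) = 1 / 4 := by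
      rw [Real.rpow_neg two_pos.le]
      norm_num
    exact h1.trans h2.le
  have c1 := conc_of_not_Sf hS (hx l hl) hG hm
  have c2 := conc_of_not_Sf hS (hx l' hl') hG' hm'
  by_contra hcon
  push Not at hcon
  have hsub : {η | G (F.tau η) ≤ G' (F.tau η)} ⊆
      {η | (2 : ℝ) ^ (-α) * EE F d (2 ^ x) ≤ |G (F.tau η) - ∫ ξ, G (F.tau ξ) ∂(law F)|} ∪
      {η | (2 : ℝ) ^ (-α) * EE F d (2 ^ x) ≤ |G' (F.tau η) - ∫ ξ, G' (F.tau ξ) ∂(law F)|} := by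
    intro η hη
    rw [Set.mem_ofPred_eq] at hη
    by_contra hno
    rw [Set.mem_union, Set.mem_ofPred_eq, Set.mem_ofPred_eq] at hno
    push Not at hno
    have h1 := abs_lt.1 hno.1
    have h2 := abs_lt.1 hno.2
    linarith [h1.1, h2.2]
  have h3 := (measureReal_mono hsub (measure_ne_top (law F) _)).trans (measureReal_union_le _ _)
  linarith

/-- **THE MEAN OF THE TUBE** (row 619, section 6). -/
theorem sixP (hd : Adm F κ d) {x : ℕ} {α : ℝ} (hS : ¬ Sf F κ d x α) (hα : 2 ≤ α) {T : ℕ} (hT1 : 1 ≤ T) (hT : T ≤ 2 ^ x)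
    {D r : ℝ} {z : ℤ} (hne : HasT F (wv d r) D T z) (he : e F d T z ≤ (2 : ℝ) ^ α * EE F d (2 ^ x))
    (hXT : ∫ η, XT F (wv d r) D η 0 T z ∂(law F) ≤ (2 : ℝ) ^ α * EE F d (2 ^ x))
    (hp : 3 / 4 ≤ (law F).real {η | XT F (wv d r) D η 0 T z ≤ X F d η 0 T z}) :
    ∫ η, XT F (wv d r) D η 0 T z ∂(law F) ≤ e F d T z + 2 * ((2 : ℝ) ^ (-α) * EE F d (2 ^ x)) := by
  have hS1 : F.co.slab 0 T ∩ TbE F (wv d r) 0 D ⊆ F.co.slab 0 T := Set.inter_subset_left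
  have hne1 : Nonempty (WK (F.co.slab 0 T ∩ TbE F (wv d r) 0 D) (F.co.vt 0) (F.co.vt (0 + ((T : ℤ), z)))) := by
    have h1 := hne
    unfold HasT at h1
    simpa only [zero_add] using h1
  have hG' := lk_XS hd hT1 hS1 hne1
  have hG := lk_X hd hT1 z
  have e1 : ∀ η, (fun τ : Env => -(TR (F.co.slab 0 T ∩ TbE F (wv d r) 0 D) τ (F.co.vt 0) (F.co.vt (0 + ((T : ℤ), z))) -
      (al F.co d * T + be F.co d * z))) (F.tau η) = -XT F (wv d r) D η 0 T z := fun η => by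
    rw [← XS_tube]
    rfl
  have e2 : ∫ η, (fun τ : Env => -(TR (F.co.slab 0 T ∩ TbE F (wv d r) 0 D) τ (F.co.vt 0) (F.co.vt (0 + ((T : ℤ), z))) -
      (al F.co d * T + be F.co d * z))) (F.tau η) ∂(law F) = -∫ η, XT F (wv d r) D η 0 T z ∂(law F) := by
    rw [← integral_neg]
    exact integral_congr_ae (Filter.Eventually.of_forall fun η => e1 η)
  have e3 := int_negX F d T z
  have h := mean_le_of_prob hS hα hT hT hG hG' (by rw [e3]; linarith) (by rw [e2]; linarith) (by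
    refine hp.trans (measureReal_mono (fun η hη => ?_) (measure_ne_top _ _))
    rw [Set.mem_ofPred_eq] at hη ⊢
    exact (neg_le_neg hη).trans (e1 η).symm.le)
  rw [e3, e2] at h
  linarith

end Pool.Agent.W_1b8d5d_h93p
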